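import Pool.Agent.L0h10.TW.Geo
import Pool.Agent.L0h10.TS.Main
import Pool.Agent.L0h10.TS.Theta

/-!
# The square theorem: conversions
-/

open CategoryTheory AlgebraicGeometry
open scoped TensorProduct

universe u v

namespace Pool.Agent.L0h10.TW

open Pool.Agent.H914 Pool.Agent.H914.VarClass Pool.Agent.H914.VarClass.Obj
  Pool.Agent.H914.WeilCohomology
open Pool.Agent.Y121.AHS Pool.Agent.N996.FP
open Pool.Agent.Y133.Half (pw)

variable {k : Type u} [Field k] {𝒱 : VarClass k} {ops : CycleOps 𝒱}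
  {T : HodgeTheory ops} {X : 𝒱.Obj}
  {Γ : Type v} [Group Γ] {L : Type} [Field L] [Algebra T.W.K L]

/-- The action in the sense of the files `TS`. -/
noncomputable def toTS (G : GaloisAction (powers T X L) Γ) : TS.GaloisAction T X Γ L where
  χ := G.χ
  χ_one := G.χ_one
  χ_mul := G.χ_mul
  ρ := G.ρ
  one := G.one
  comp := G.comp
  add := fun n g x y => (G.lin n g).map_add x y
  smul := fun n g l x => (G.lin n g).map_smul l x
  deg := fun n g i x h => G.deg n g i x h
  cross := G.cross

variable [TopologicalSpace Γ] (G : GaloisAction (powers T X L) Γ)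

lemma tate_iff (n j : ℕ) (x : HL T.W L (pw X n)) :
    TS.IsTate (toTS G) n j x ↔ IsTate G n j x := Iff.rfl

lemma inf_iff (D : ∀ n, (powers T X L).U n → (powers T X L).U n) :
    TS.IsInfinitesimal (T := T) (X := X) (Ω := AlgebraicClosure L) D ↔
      IsInfinitesimal (powers T X L) D :=
  ⟨fun h => ⟨fun n => ⟨h.add n, h.smul n⟩, h.leibniz⟩,
    fun h => ⟨fun n x y => (h.lin n).map_add x y, fun n l x => (h.lin n).map_smul l x,
      h.leibniz⟩⟩

lemma kt_iff (D : ∀ n, (powers T X L).U n → (powers T X L).U n) :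
    TS.KillsTate (T := T) (X := X) (Ω := AlgebraicClosure L) (toTS G) D ↔ KillsTate G D := Iff.rfl

lemma kh_iff (D : ∀ n, (powers T X L).U n → (powers T X L).U n) :
    TS.KillsHodge (T := T) (X := X) (Ω := AlgebraicClosure L) D ↔ KillsHodge (powers T X L) D := by
  have key : ∀ (n : ℕ) (c : T.W.H (pw X n)), TS.up (AlgebraicClosure L) (emL T.W L c) =
    emL T.W (AlgebraicClosure L) c := fun n c => TS.up_em c
  constructor
  · rintro h n j _ ⟨c, hc, rfl⟩
    have h1 := h n j c hc
    rw [← key n c] at h1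
    exact h1
  · intro h n j c hc
    have h1 := h n j _ ⟨c, hc, rfl⟩
    rw [← key n c]
    exact h1

lemma deg_up {n i : ℕ} {x : HL T.W L (pw X n)} (hx : IsDeg i x) :
    IsDeg i (TS.up (AlgebraicClosure L) x) := by
  have key : ∀ x : L ⊗[T.W.K] T.W.H (pw X n), x ∈ (T.W.gr (pw X n) i).baseChange L →
      IsDeg i (TS.up (AlgebraicClosure L) (X := pw X n) x) := by
    intro x hx
    rw [Submodule.baseChange_eq_span] at hx
    induction hx using Submodule.span_induction with
    | mem x hx =>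
      obtain ⟨c, hc, rfl⟩ := hx
      have h1 : TS.up (AlgebraicClosure L) (emL T.W L c) = emL T.W (AlgebraicClosure L) c :=
        TS.up_em c
      have h2 : IsDeg i (emL T.W (AlgebraicClosure L) c) :=
        Submodule.tmul_mem_baseChange_of_mem _ hc
      rw [← h1] at h2
      exact h2
    | zero =>
      have h1 : TS.up (AlgebraicClosure L) (0 : HL T.W L (pw X n)) = 0 := TS.up_zero
      have h2 : IsDeg i (0 : HL T.W (AlgebraicClosure L) (pw X n)) := Submodule.zero_mem _
      rw [← h1] at h2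
      exact h2
    | add a b _ _ ha hb =>
      have h1 : TS.up (AlgebraicClosure L) ((show HL T.W L (pw X n) from a) +
        (show HL T.W L (pw X n) from b)) = _ := TS.up_add _ _
      have h2 := Submodule.add_mem _ ha hb
      rw [← h1] at h2
      exact h2
    | smul c a _ ha =>
      have h1 : TS.up (AlgebraicClosure L) (smL c (show HL T.W L (pw X n) from a)) = _ :=
        TS.up_smL c _
      have h2 : smL (algebraMap L (AlgebraicClosure L) c) (TS.up (AlgebraicClosure L)
        (show HL T.W L (pw X n) from a)) ∈ grL T.W (AlgebraicClosure L) (pw X n) i :=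
        Submodule.smul_mem _ _ ha
      rw [← h1] at h2
      exact h2
  exact key x hx

lemma sq_aux {K F M : Type} [Field K] [Field F] [Algebra K F] [AddCommGroup M] [Module K M]
    (f : F ⊗[K] M → F ⊗[K] M) (hadd : ∀ x y, f (x + y) = f x + f y)
    (hsm : ∀ (c : F) x, f (c • x) = c • f x) (p : Submodule K M)
    (hb : ∀ c ∈ p, f (f ((1 : F) ⊗ₜ[K] c)) = (1 : F) ⊗ₜ[K] c) (x : F ⊗[K] M)
    (hx : x ∈ p.baseChange F) : f (f x) = x := by
  rw [Submodule.baseChange_eq_span] at hx
  induction hx using Submodule.span_induction with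
  | mem x hx =>
    obtain ⟨c, hc, rfl⟩ := hx
    exact hb c hc
  | zero =>
    have h0 : f 0 = 0 := by
      have := hsm 0 0
      rwa [zero_smul, zero_smul] at this
    rw [h0, h0]
  | add a b _ _ ha hb => rw [hadd, hadd, ha, hb]
  | smul c a _ ha => rw [hsm, hsm, ha]

lemma sq_iff {D : ∀ n, (powers T X L).U n → (powers T X L).U n}
    (hD : TS.IsInfinitesimal (T := T) (X := X) (Ω := AlgebraicClosure L) D) :
    (∀ x : HL T.W (AlgebraicClosure L) (pw X 0), IsDeg 1 x → D 0 (D 0 x) = x) ↔
      ∀ x, (powers T X L).deg 0 1 x → D 0 (D 0 ((powers T X L).up 0 x)) =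
        (powers T X L).up 0 x := by
  constructor
  · intro h x hx
    exact h _ (deg_up (n := 0) hx)
  · intro h x hx
    refine sq_aux (K := T.W.K) (F := AlgebraicClosure L) (M := T.W.H (pw X 0)) (D 0)
      (fun x y => hD.add 0 x y) (fun c x => hD.smul 0 c x) (T.W.gr (pw X 0) 1) (fun c hc => ?_) x hx
    have h1 : TS.up (AlgebraicClosure L) (emL T.W L c) = emL T.W (AlgebraicClosure L) c :=
      TS.up_em c
    have h2 : IsDeg 1 (emL T.W L c) := Submodule.tmul_mem_baseChange_of_mem _ hc
    have h3 : D 0 (D 0 (TS.up (AlgebraicClosure L) (emL T.W L c))) =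
      TS.up (AlgebraicClosure L) (emL T.W L c) := h _ h2
    rw [h1] at h3
    exact h3

lemma weak_iff (D : ∀ n, (powers T X L).U n → (powers T X L).U n) :
    TS.IsWeakHodge (T := T) (X := X) (Ω := AlgebraicClosure L) (toTS G) D ↔ IsWeakHodge G D :=
  ⟨fun h => ⟨(inf_iff D).1 h.inf, (kt_iff G D).1 h.tate, (sq_iff h.inf).1 h.sq⟩,
    fun h => ⟨(inf_iff D).2 h.1, (kt_iff G D).2 h.2.1, (sq_iff ((inf_iff D).2 h.1)).2 h.2.2⟩⟩

lemma h1_iff : TS.HodgeClassesAreTate (T := T) (X := X) (toTS G) ↔ HodgeClassesAreTate G := by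
  constructor
  · rintro h n j _ ⟨c, hc, rfl⟩
    exact h n j c hc
  · intro h n j c hc
    exact h n j _ ⟨c, hc, rfl⟩

lemma h2_iff : TS.ActsSemisimply (T := T) (X := X) (toTS G) ↔ ActsSemisimply G := Iff.rfl

lemma tc_iff (n : ℕ) :
    TS.TateConjecture (T := T) (X := X) (toTS G) n ↔ TateConjecture G n := Iff.rfl

lemma h3_iff : TS.WeakHodgeOperatorsGenerate (AlgebraicClosure L) (T := T) (X := X) (toTS G) ↔
    WeakHodgeOperatorsGenerate G :=
  forall_congr' fun _ => imp_congr (forall_congr' fun D => imp_congr (weak_iff G D) Iff.rfl) Iff.rfl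

lemma h4_iff : TS.CentreKillsTate (AlgebraicClosure L) (T := T) (X := X) (toTS G) ↔
    CentreKillsTate G :=
  forall_congr' fun _ => imp_congr (inf_iff _) <| imp_congr (kh_iff _) <| imp_congr
    (forall_congr' fun D => imp_congr (inf_iff D) <| imp_congr (kh_iff D) Iff.rfl) (kt_iff G _)

/-- The square theorem. -/
theorem square [IsTopologicalGroup Γ] [CharZero L] (θ : AlgebraicClosure L ≃+* ℂ)
    {ψ : RForm T.W X} (hψ : IsPolarisation T X ψ)
    (hX : OfAbelianType T X) (h1 : HodgeClassesAreTate G) (h2 : ActsSemisimply G)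
    (h3 : WeakHodgeOperatorsGenerate G)
    (h4 : SelfAdjointCentre T X ψ ∨ CentreKillsTate G) {N : ℕ}
    (hN : (SelfAdjointCentre T X ψ ∧ N = 2) ∨
      (EqualTraces T X ∧ N = max 2 (2 * X.dim)) ∨ N = max 4 (2 * X.dim ^ (2 * X.dim)))
    (hT : TateConjecture G (N - 1)) (n : ℕ) :
    TateConjecture G n ∧ TW.HodgeConjecture (powers T X L) n := by
  have : CharZero (AlgebraicClosure L) :=
    charZero_of_injective_algebraMap (algebraMap L (AlgebraicClosure L)).injective
  have h := TS.square (T := T) (X := X) (toTS G) θ hψ hX ((h1_iff G).2 h1) ((h2_iff G).2 h2)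
    ((h3_iff G).2 h3) (h4.imp_right (h4_iff G).2) hN ((tc_iff G _).2 hT) n
  refine ⟨(tc_iff G n).1 h.1, ?_⟩
  rintro j _ ⟨c, hc, rfl⟩
  obtain ⟨z, hz, rfl⟩ := h.2 j c hc
  exact ⟨z, hz, rfl⟩

end Pool.Agent.L0h10.TW
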