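import Mathlib

/-!
# Galois actions, Tate classes and infinitesimal operators

Let `k` be an algebraic closure of a field `k₀` of finite type over `ℚ`, embedded into the field of
complex numbers, and let `X` be an abelian variety over `k` which is defined over `k₀`. For a prime
number `ℓ` and `L = ℚ_ℓ`, the Galois group `Γ` of `k` over `k₀` acts on the `ℓ`-adic cohomology
algebras `V n = L ⊗ H(X(ℂ) ^ (n + 1), ℚ)` of the powers of `X`. Let `Ω` be an algebraic closure of
`L` and `U n = Ω ⊗ H(X(ℂ) ^ (n + 1), ℚ)`.
-/

universe u v

namespace Pool.Agent.L0h10.TW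

/-- The cohomology of the powers `X ^ (n + 1)` of a variety `X` with coefficients in the fields `L`
and `Ω`. -/
structure PowerCohomology (L Ω : Type) [Field L] [Field Ω] where
  /-- the cohomology of `X ^ (n + 1)` with coefficients in `L` -/
  V : ℕ → Type
  /-- the cohomology of `X ^ (n + 1)` with coefficients in `Ω` -/
  U : ℕ → Type
  [addV : ∀ n, AddCommGroup (V n)]
  [modV : ∀ n, Module L (V n)]
  [addU : ∀ n, AddCommGroup (U n)]
  [modU : ∀ n, Module Ω (U n)]
  /-- the extension of the coefficients, `l ⊗ c ↦ l ⊗ c` -/
  up : ∀ n, V n → U n
  /-- `x` is homogeneous of degree `i` -/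
  deg : ∀ n, ℕ → V n → Prop
  /-- the exterior product `pr₁^* a · pr₂^* b` on `X ^ (n + 2) = X ^ (n + 1) × X` -/
  crossV : ∀ n, V n → V 0 → V (n + 1)
  /-- the exterior product with coefficients in `Ω` -/
  crossU : ∀ n, U n → U 0 → U (n + 1)
  /-- `x` is a Hodge class of degree `2 j`: an element of `H ^ (2 j)(X ^ (n + 1), ℚ)` of type
  `(j, j)` -/
  hodge : ∀ n, ℕ → V n → Prop
  /-- `x` is the class of an algebraic cycle of codimension `j`, with rational coefficients -/
  alg : ∀ n, ℕ → V n → Prop

attribute [instance] PowerCohomology.addV PowerCohomology.modV PowerCohomology.addU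
  PowerCohomology.modU

/-- The vector `x` is a linear combination, with coefficients in `L`, of vectors with the
property `P`. -/
def IsComb (L : Type) [Field L] {V : Type} [AddCommGroup V] [Module L V] (P : V → Prop) (x : V) :
    Prop :=
  x ∈ Submodule.span L {y | P y}

/-- The open subgroups of the topological group `Γ` act semisimply on the vector space `V` over
`L`: every subspace of `V` which is stable under an open subgroup has a complement which is stable
under this subgroup. -/
def SemisimpleAction {Γ : Type v} [Group Γ] [TopologicalSpace Γ] (L : Type) [Field L]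
    {V : Type} [AddCommGroup V] [Module L V] (ρ : Γ → V → V) : Prop :=
  ∀ (Δ : OpenSubgroup Γ) (U : Submodule L V), (∀ g ∈ Δ, ∀ x ∈ U, ρ g x ∈ U) →
    ∃ U' : Submodule L V, (∀ g ∈ Δ, ∀ x ∈ U', ρ g x ∈ U') ∧ IsCompl U U'

/-- The value of a homomorphism. -/
def val {A : Type u} {B : Type} [AddCommGroup A] [AddCommGroup B] (f : A →+ B) (a : A) : B := f a

/-- `c x = y`. -/
def IsMul {L : Type} [Field L] {V : Type} [AddCommGroup V] [Module L V] (c : L) (x y : V) : Prop :=
  c • x = y

/-- `x = 0`. -/
def IsZero {V : Type} [AddCommGroup V] (x : V) : Prop := x = 0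

/-- `x = a + b`. -/
def IsSum {V : Type} [AddCommGroup V] (x a b : V) : Prop := x = a + b

variable {L Ω : Type} [Field L] [Field Ω]

/-- An action of the group `Γ` on the cohomology of the powers of `X` with coefficients in `L`,
together with a character `χ` of `Γ` (the cyclotomic character). The elements of `Γ` act by
`L`-linear maps which preserve the degrees and respect exterior products. -/
structure GaloisAction (C : PowerCohomology L Ω) (Γ : Type v) [Group Γ] where
  /-- the character -/
  χ : Γ → L
  χ_one : χ 1 = 1
  χ_mul : ∀ g h, χ (g * h) = χ g * χ h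
  /-- the action -/
  ρ : ∀ n, Γ → C.V n → C.V n
  one : ∀ n x, ρ n 1 x = x
  comp : ∀ n g h x, ρ n (g * h) x = ρ n g (ρ n h x)
  lin : ∀ n g, IsLinearMap L (ρ n g)
  deg : ∀ n g i x, C.deg n i x → C.deg n i (ρ n g x)
  cross : ∀ n g a b, ρ (n + 1) g (C.crossV n a b) = C.crossV n (ρ n g a) (ρ 0 g b)

variable {C : PowerCohomology L Ω} {Γ : Type v} [Group Γ] [TopologicalSpace Γ]
  (G : GaloisAction C Γ)

/-- The class `x` on `X ^ (n + 1)` is a Tate class of degree `2 j`: it has degree `2 j`, and
`χ(g) ^ j · g x = x` for all `g` in some open subgroup of `Γ`. (That is, `x`, as an element of the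
Tate twist `H ^ (2 j)(X ^ (n + 1))(j)`, is fixed by some open subgroup.) -/
def IsTate (n j : ℕ) (x : C.V n) : Prop :=
  C.deg n (2 * j) x ∧ ∃ Δ : OpenSubgroup Γ, ∀ g ∈ Δ, IsMul (G.χ g ^ j) (G.ρ n g x) x

/-- The Tate conjecture for `X ^ (n + 1)`: for all `j` the Tate classes of degree `2 j` are
`L`-linear combinations of the classes of the algebraic cycles of codimension `j`. -/
def TateConjecture (n : ℕ) : Prop := ∀ j x, IsTate G n j x → IsComb L (C.alg n j) x

variable (C) in
/-- The Hodge conjecture for `X ^ (n + 1)`: the Hodge classes are classes of algebraic cycles with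
rational coefficients. -/
def HodgeConjecture (n : ℕ) : Prop := ∀ j x, C.hodge n j x → C.alg n j x

/-- The Hodge classes on the powers of `X` are Tate classes. (For abelian varieties it is a theorem
of Deligne.) -/
def HodgeClassesAreTate : Prop := ∀ n j x, C.hodge n j x → IsTate G n j x

/-- The action of the open subgroups on `H(X, L)` is semisimple. (For abelian varieties it is a
theorem of Faltings.) -/
def ActsSemisimply : Prop := SemisimpleAction L (G.ρ 0)

variable (C) in
/-- The family `D`, of maps from the cohomology of `X ^ (n + 1)` with coefficients in `Ω` to itself,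
is an infinitesimal operator: `D n` is linear, and `D(a × b) = D a × b + a × D b` for the exterior
products of classes `a` on `X ^ (n + 1)` and `b` on `X`. (So `D` is given by the linear map `D 0` of
`H(X)`, which acts on `H(X ^ (n + 1)) = H(X) ⊗ … ⊗ H(X)` by the rule of Leibniz.) -/
structure IsInfinitesimal (D : ∀ n, C.U n → C.U n) : Prop where
  lin : ∀ n, IsLinearMap Ω (D n)
  leibniz : ∀ n a b, IsSum (D (n + 1) (C.crossU n a b)) (C.crossU n (D n a) b)
    (C.crossU n a (D 0 b))

variable (C) in
/-- The family `D` is zero on the Hodge classes on the powers of `X`. (If `D` is an infinitesimal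
operator, then it means that `D` belongs to the Lie algebra of the Hodge group of `X`.) -/
def KillsHodge (D : ∀ n, C.U n → C.U n) : Prop :=
  ∀ n j x, C.hodge n j x → IsZero (D n (C.up n x))

/-- The family `D` is zero on the Tate classes on the powers of `X`. -/
def KillsTate (D : ∀ n, C.U n → C.U n) : Prop :=
  ∀ n j x, IsTate G n j x → IsZero (D n (C.up n x))

/-- A weak Hodge operator: an infinitesimal operator which is zero on the Tate classes and whose
square is the identity on `H^1(X)`. (Let `X` be an abelian variety. The weak Hodge cocharacters of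
Pink are the cocharacters of the `ℓ`-adic algebraic monodromy group, with coefficients in `Ω`, with
the weights `0` and `1` on `H^1(X)`, of equal multiplicity. If `μ` is the derivative of such a
cocharacter, then `2 μ - i` on the cohomology of degree `i` is a weak Hodge operator.) -/
def IsWeakHodge (D : ∀ n, C.U n → C.U n) : Prop :=
  IsInfinitesimal C D ∧ KillsTate G D ∧ ∀ x, C.deg 0 1 x → D 0 (D 0 (C.up 0 x)) = C.up 0 x

/-- The classes on `X × X` with coefficients in `Ω` which are killed by all weak Hodge operators are
linear combinations of Tate classes. (For abelian varieties it follows from the theorem of Pink: the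
connected `ℓ`-adic algebraic monodromy group is generated by weak Hodge cocharacters.) -/
def WeakHodgeOperatorsGenerate : Prop :=
  ∀ x, (∀ D, IsWeakHodge G D → IsZero (D 1 x)) →
    IsComb Ω (fun y => ∃ j z, IsTate G 1 j z ∧ C.up 1 z = y) x

/-- The centre of the Lie algebra of the Hodge group kills the Tate classes: if an infinitesimal
operator `Z` is zero on the Hodge classes and commutes on `H(X)` with all such operators, then it is
zero on the Tate classes. (For abelian varieties it follows from the theorem of Vasiu, Ullmo and
Yafaev: the centres of the Mumford-Tate group and of the `ℓ`-adic algebraic monodromy group have the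
same identity component. There is nothing to prove if the Hodge group is semisimple.) -/
def CentreKillsTate : Prop := ∀ Z, IsInfinitesimal C Z → KillsHodge C Z →
  (∀ D, IsInfinitesimal C D → KillsHodge C D → ∀ x, Z 0 (D 0 x) = D 0 (Z 0 x)) → KillsTate G Z

end Pool.Agent.L0h10.TW
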