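import Pool.Agent.N996.FP.Defs
import Pool.Agent.L0h10.TW.Abs

/-!
# The cohomology of the powers of a variety
-/

open CategoryTheory AlgebraicGeometry
open scoped TensorProduct

universe u

namespace Pool.Agent.L0h10.TW

open Pool.Agent.H914 Pool.Agent.H914.VarClass Pool.Agent.H914.VarClass.Obj
  Pool.Agent.H914.WeilCohomology
open Pool.Agent.Y121.AHS Pool.Agent.N996.FP
open Pool.Agent.Y133.Half (pw)

/-- The extension of the coefficients from `L` to an algebraic closure of `L`: the map
`L ⊗ A → Ω ⊗ A`, `l ⊗ a ↦ l ⊗ a`. -/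
noncomputable def extUp (K L : Type) {A : Type} [Field K] [Field L] [Algebra K L] [Ring A]
    [Algebra K A] (x : Ext K L A) : Ext K (AlgebraicClosure L) A :=
  ((IsScalarTower.toAlgHom K L (AlgebraicClosure L)).toLinearMap.rTensor A
    (show L ⊗[K] A from x) : AlgebraicClosure L ⊗[K] A)

variable {k : Type u} [Field k] {𝒱 : VarClass k} {ops : CycleOps 𝒱}

/-- The exterior product `pr₁^* a · pr₂^* b` on `Z × X`. -/
noncomputable def crossL {W : WeilCohomology.{u, 0} ops} {F : Type} [Field F] [Algebra W.K F]
    {Z X : 𝒱.Obj} (a : HL W F Z) (b : HL W F X) : HL W F (Obj.prod Z X) :=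
  mulL (mapL (fst Z X) a) (mapL (snd Z X) b)

/-- The cohomology of the powers of `X` with coefficients in `L` and in an algebraic closure of `L`,
where `hodge Z j` is the set of the Hodge classes of degree `2 j` on `Z`; `pw X n` is the power
`X ^ (n + 1)`. -/
noncomputable def powersOf (W : WeilCohomology.{u, 0} ops) (hodge : ∀ Z : 𝒱.Obj, ℕ → W.H Z → Prop)
    (X : 𝒱.Obj) (L : Type) [Field L] [Algebra W.K L] : PowerCohomology L (AlgebraicClosure L) where
  V n := HL W L (pw X n)
  U n := HL W (AlgebraicClosure L) (pw X n)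
  up _ := extUp W.K L
  deg _ := IsDeg
  crossV _ := crossL
  crossU _ := crossL
  hodge n j x := ∃ c, hodge (pw X n) j c ∧ emL W L c = x
  alg n j x := ∃ z, (pw X n).IsCyc j z ∧ emL W L (val (W.cl (pw X n)) z) = x

/-- The cohomology of the powers of `X` with coefficients in `L` and in an algebraic closure of
`L`. -/
noncomputable def powers (T : HodgeTheory ops) (X : 𝒱.Obj) (L : Type) [Field L]
    [Algebra T.W.K L] : PowerCohomology L (AlgebraicClosure L) :=
  powersOf T.W (IsHodge T) X L

end Pool.Agent.L0h10.TW
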